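import Mathlib

/-!
# Fraenkel's conjecture: the cosecant systems `C(a)`

Conventions shared by all the files under `Pool/Agent/Helper27/FK`.
-/

open Finset Real

namespace Pool.Agent.Helper27.FK

/-- The distance of `a / b` modulo `D` to `0`. -/
def xd (D a b : ℕ) : ℕ := ((a : ZMod D) * (b : ZMod D)⁻¹).valMinAbs.natAbs

/-- The normalised cosecant `sin (π/D) / sin (π x/D)`. -/
noncomputable def f (D x : ℕ) : ℝ := Real.sin (π / D) / Real.sin (π * x / D)

/-- The system of cosecant inequalities satisfied by the numerators of the rates with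
largest denominator `D`. -/
structure Sys (D : ℕ) (I : Finset ℕ) : Prop where
  pos : ∀ a ∈ I, 0 < a
  cop : ∀ a ∈ I, Nat.Coprime a D
  sum_le : ∑ a ∈ I, a ≤ D
  C : ∀ a ∈ I, 1 ≤ ∑ b ∈ I.erase a, f D (xd D a b)

/-! ### arithmetic of `xd` -/

lemma two_mul_xd_le {D : ℕ} (hD : 0 < D) (a b : ℕ) : 2 * xd D a b ≤ D := by
  have : NeZero D := ⟨hD.ne'⟩
  have := ZMod.natAbs_valMinAbs_le ((a : ZMod D) * (b : ZMod D)⁻¹)
  unfold xd
  omega

lemma xd_cast {D : ℕ} (a b : ℕ) :
    ((xd D a b : ℕ) : ZMod D) = (a : ZMod D) * (b : ZMod D)⁻¹ ∨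
    ((xd D a b : ℕ) : ZMod D) = -((a : ZMod D) * (b : ZMod D)⁻¹) := by
  unfold xd
  generalize (a : ZMod D) * (b : ZMod D)⁻¹ = z
  have h1 : ((z.valMinAbs : ℤ) : ZMod D) = z := ZMod.coe_valMinAbs z
  have h0 : ((z.valMinAbs.natAbs : ℕ) : ZMod D) = (((z.valMinAbs.natAbs : ℕ) : ℤ) : ZMod D) :=
    (Int.cast_natCast _).symm
  rcases Int.natAbs_eq z.valMinAbs with h | h
  · left
    rw [h0, ← h, h1]
  · right
    have h2 : ((z.valMinAbs.natAbs : ℕ) : ℤ) = - z.valMinAbs := by omega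
    rw [h0, h2, Int.cast_neg, h1]

lemma mul_xd_cast {D a b : ℕ} (hb : b.Coprime D) :
    ((b * xd D a b : ℕ) : ZMod D) = (a : ZMod D) ∨
    ((b * xd D a b : ℕ) : ZMod D) = -(a : ZMod D) := by
  have hinv : (b : ZMod D) * (b : ZMod D)⁻¹ = 1 := ZMod.coe_mul_inv_eq_one b hb
  rcases xd_cast (D := D) a b with h | h
  · left
    push_cast
    rw [h]
    calc (b : ZMod D) * ((a : ZMod D) * (b : ZMod D)⁻¹)
        = a * ((b : ZMod D) * (b : ZMod D)⁻¹) := by ring
      _ = a := by rw [hinv, mul_one]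
  · right
    push_cast
    rw [h]
    calc (b : ZMod D) * -((a : ZMod D) * (b : ZMod D)⁻¹)
        = -(a * ((b : ZMod D) * (b : ZMod D)⁻¹)) := by ring
      _ = -a := by rw [hinv, mul_one]

/-- `b x = t D + a` or `b x + a = t D`. -/
lemma xd_spec {D a b : ℕ} (hb : b.Coprime D) (haD : a < D) :
    ∃ t : ℕ, b * xd D a b = t * D + a ∨ b * xd D a b + a = t * D := by
  rcases mul_xd_cast (a := a) hb with h | h
  · have h2 : (b * xd D a b) ≡ a [MOD D] := (ZMod.natCast_eq_natCast_iff _ _ _).1 h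
    refine ⟨(b * xd D a b) / D, Or.inl ?_⟩
    have h3 : (b * xd D a b) % D = a := by
      have := h2; unfold Nat.ModEq at this; rw [this, Nat.mod_eq_of_lt haD]
    have := Nat.div_add_mod (b * xd D a b) D
    rw [h3] at this
    linarith [Nat.mul_comm D (b * xd D a b / D)]
  · have h2 : ((b * xd D a b + a : ℕ) : ZMod D) = 0 := by
      push_cast at h ⊢
      rw [h]; ring
    rw [ZMod.natCast_eq_zero_iff] at h2
    obtain ⟨t, ht⟩ := h2
    exact ⟨t, Or.inr (by rw [ht]; ring)⟩

lemma xd_pos {D a b : ℕ} (hD : 1 < D) (ha : a.Coprime D) (hb : b.Coprime D) :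
    0 < xd D a b := by
  rcases Nat.eq_zero_or_pos (xd D a b) with h | h
  · exfalso
    have h2 : ((a : ℕ) : ZMod D) = 0 := by
      rcases mul_xd_cast (a := a) hb with h1 | h1
      · rw [h] at h1; simpa using h1.symm
      · rw [h] at h1; simpa using h1.symm
    rw [ZMod.natCast_eq_zero_iff] at h2
    have : D ∣ Nat.gcd a D := Nat.dvd_gcd h2 dvd_rfl
    rw [ha] at this
    have := Nat.le_of_dvd one_pos this
    omega
  · exact h

/-- uniqueness of the distance -/
lemma xd_eq_of {D a b x : ℕ} (hD : 0 < D) (hb : b.Coprime D) (hx : 2 * x ≤ D)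
    (h : (D : ℤ) ∣ (b : ℤ) * x - a ∨ (D : ℤ) ∣ (b : ℤ) * x + a) : xd D a b = x := by
  have : NeZero D := ⟨hD.ne'⟩
  set z := (a : ZMod D) * (b : ZMod D)⁻¹ with hz
  have hinv : (b : ZMod D) * (b : ZMod D)⁻¹ = 1 := ZMod.coe_mul_inv_eq_one b hb
  have key : (x : ZMod D) = z ∨ (x : ZMod D) = -z := by
    rcases h with h | h
    · left
      have h1 : (((b : ℤ) * x - a : ℤ) : ZMod D) = 0 := (ZMod.intCast_zmod_eq_zero_iff_dvd _ _).2 h
      push_cast at h1
      have h2 : (b : ZMod D) * x = a := by linear_combination h1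
      calc (x : ZMod D) = x * ((b : ZMod D) * (b : ZMod D)⁻¹) := by rw [hinv, mul_one]
        _ = ((b : ZMod D) * x) * (b : ZMod D)⁻¹ := by ring
        _ = z := by rw [h2]
    · right
      have h1 : (((b : ℤ) * x + a : ℤ) : ZMod D) = 0 := (ZMod.intCast_zmod_eq_zero_iff_dvd _ _).2 h
      push_cast at h1
      have h2 : (b : ZMod D) * x = -a := by linear_combination h1
      calc (x : ZMod D) = x * ((b : ZMod D) * (b : ZMod D)⁻¹) := by rw [hinv, mul_one]
        _ = ((b : ZMod D) * x) * (b : ZMod D)⁻¹ := by ring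
        _ = -z := by rw [h2, hz]; ring
  have hv : ((x : ZMod D)).valMinAbs.natAbs = x := by
    rw [ZMod.valMinAbs_natCast_of_le_half (by omega)]
    simp
  show z.valMinAbs.natAbs = x
  rcases key with h | h
  · rw [← h, hv]
  · have h3 : z = -(x : ZMod D) := by rw [h, neg_neg]
    rw [h3, ZMod.natAbs_valMinAbs_neg, hv]

/-- For fixed `a` the map `b ↦ xd D a b` is injective as long as `b + b' < D`. -/
lemma xd_injective {D a b b' : ℕ} (hD : 1 < D) (ha : a.Coprime D) (hb : b.Coprime D)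
    (hb' : b'.Coprime D) (hs : b + b' < D) (h : xd D a b = xd D a b') : b = b' := by
  have : NeZero D := ⟨by omega⟩
  have h1 := mul_xd_cast (D := D) (a := a) hb
  have h2 := mul_xd_cast (D := D) (a := a) hb'
  rw [← h] at h2
  set x := xd D a b with hx
  have haU : IsUnit (a : ZMod D) := (ZMod.isUnit_iff_coprime a D).2 ha
  have hxc : IsUnit (x : ZMod D) := by
    rcases h1 with h1 | h1
    · push_cast at h1
      exact isUnit_of_mul_isUnit_right (by rw [h1]; exact haU)
    · push_cast at h1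
      exact isUnit_of_mul_isUnit_right (by rw [h1]; exact haU.neg)
  have key : (b : ZMod D) = b' ∨ (b : ZMod D) = - b' := by
    rcases h1 with h1 | h1 <;> rcases h2 with h2 | h2 <;> push_cast at h1 h2
    · left; exact hxc.mul_right_cancel (by rw [h1, h2])
    · right; exact hxc.mul_right_cancel (by linear_combination h1 + h2)
    · right; exact hxc.mul_right_cancel (by linear_combination h1 + h2)
    · left; exact hxc.mul_right_cancel (by rw [h1, h2])
  rcases key with h3 | h3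
  · have h4 : b ≡ b' [MOD D] := (ZMod.natCast_eq_natCast_iff _ _ _).1 h3
    unfold Nat.ModEq at h4
    rwa [Nat.mod_eq_of_lt (by omega), Nat.mod_eq_of_lt (by omega)] at h4
  · have h4 : ((b + b' : ℕ) : ZMod D) = 0 := by push_cast; rw [h3]; ring
    rw [ZMod.natCast_eq_zero_iff] at h4
    have h5 : b + b' = 0 := Nat.eq_zero_of_dvd_of_lt h4 hs
    omega

/-! ### analysis of `f` -/

lemma sin_ge_cubic {u : ℝ} (hu : 0 ≤ u) : u - u ^ 3 / 6 ≤ Real.sin u := by
  have hd : ∀ x : ℝ, HasDerivAt (fun x : ℝ => Real.sin x - (x - x ^ 3 / 6))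
      (Real.cos x - (1 - 3 * x ^ 2 / 6)) x := by
    intro x
    have h3 : HasDerivAt (fun x : ℝ => x ^ 3 / 6) (3 * x ^ 2 / 6) x := by
      have := (hasDerivAt_pow 3 x).div_const 6
      simpa using this
    exact (Real.hasDerivAt_sin x).sub ((hasDerivAt_id x).sub h3)
  have hmono : MonotoneOn (fun x : ℝ => Real.sin x - (x - x ^ 3 / 6)) (Set.Ici 0) := by
    apply monotoneOn_of_deriv_nonneg (convex_Ici 0)
    · exact fun x _ => (hd x).continuousAt.continuousWithinAt
    · exact fun x _ => (hd x).differentiableAt.differentiableWithinAt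
    · intro x _
      rw [(hd x).deriv]
      have := Real.one_sub_sq_div_two_le_cos (x := x)
      nlinarith
  have h0 := hmono (Set.mem_Ici.2 le_rfl) (Set.mem_Ici.2 hu) hu
  simp at h0
  linarith

/-- The cosecant bound `π / sin (π y) ≤ 1 / y + 2.2832 y` on `(0, 1/2]`, multiplied out. -/
lemma sin_bound {y : ℝ} (hy : 0 ≤ y) (hy2 : y ≤ 1 / 2) :
    π * y ≤ Real.sin (π * y) * (1 + 2.2832 * y ^ 2) := by
  have hpi1 := Real.pi_gt_d4
  have hpi2 := Real.pi_lt_d4
  have hpos : 0 ≤ 1 + 2.2832 * y ^ 2 := by positivity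
  rcases le_total y 0.38 with h | h
  · have h1 := sin_ge_cubic (u := π * y) (by positivity)
    have h2 : (π * y - (π * y) ^ 3 / 6) * (1 + 2.2832 * y ^ 2) ≤
        Real.sin (π * y) * (1 + 2.2832 * y ^ 2) := mul_le_mul_of_nonneg_right h1 hpos
    refine le_trans ?_ h2
    -- (π y)(1 - π² y²/6)(1 + c y²) ≥ π y
    have hy2' : y ^ 2 ≤ 0.1444 := by nlinarith
    have hp2 : π ^ 2 ≤ 9.87 := by nlinarith
    have hp0 : 0 ≤ π ^ 2 := by positivity
    have e : (π * y - (π * y) ^ 3 / 6) * (1 + 2.2832 * y ^ 2) - π * y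
        = π * y * y ^ 2 * (2.2832 - π ^ 2 / 6 - 2.2832 * π ^ 2 * y ^ 2 / 6) := by ring
    have h3 : 0 ≤ 2.2832 - π ^ 2 / 6 - 2.2832 * π ^ 2 * y ^ 2 / 6 := by
      have : π ^ 2 * y ^ 2 ≤ 9.87 * 0.1444 := mul_le_mul hp2 hy2' (by positivity) (by norm_num)
      nlinarith
    have h4 : 0 ≤ π * y * y ^ 2 * (2.2832 - π ^ 2 / 6 - 2.2832 * π ^ 2 * y ^ 2 / 6) := by
      positivity
    linarith
  · set v : ℝ := π * (1 / 2 - y) with hv
    have hv0 : 0 ≤ v := by
      have : 0 ≤ 1 / 2 - y := by linarith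
      positivity
    have hsin : Real.sin (π * y) = Real.cos v := by
      rw [hv, ← Real.cos_pi_div_two_sub]
      congr 1; ring
    rw [hsin]
    have h1 := Real.one_sub_sq_div_two_le_cos (x := v)
    have h2 : (1 - v ^ 2 / 2) * (1 + 2.2832 * y ^ 2) ≤ Real.cos v * (1 + 2.2832 * y ^ 2) :=
      mul_le_mul_of_nonneg_right h1 hpos
    refine le_trans ?_ h2
    set w : ℝ := 1 / 2 - y with hw
    have hw0 : 0 ≤ w := by linarith
    have hw1 : w ≤ 0.12 := by linarith
    have hyw : y = 1 / 2 - w := by rw [hw]; ring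
    rw [hyw, hv]
    have hp2 : π ^ 2 ≤ 9.87 := by nlinarith
    have hw2 : w ^ 2 ≤ 0.12 * w := by nlinarith
    -- goal: π (1/2 - w) ≤ (1 - π² w²/2) (1 + c (1/2 - w)²)
    have h5 : (1 + 2.2832 * (1 / 2 - w) ^ 2) ≤ 1.5708 := by nlinarith
    have h6 : 0 ≤ (1 + 2.2832 * (1 / 2 - w) ^ 2) := by positivity
    have h7 : (π * w) ^ 2 / 2 * (1 + 2.2832 * (1 / 2 - w) ^ 2) ≤ (9.87 * (0.12 * w)) / 2 * 1.5708 := by
      apply mul_le_mul _ h5 h6 (by positivity)
      have : (π * w) ^ 2 ≤ 9.87 * (0.12 * w) := by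
        rw [mul_pow]; exact mul_le_mul hp2 hw2 (by positivity) (by norm_num)
      linarith
    nlinarith

lemma sin_pos_of {D x : ℕ} (hx : 0 < x) (hxD : x < D) : 0 < Real.sin (π * x / D) := by
  have hD : (0 : ℝ) < D := by exact_mod_cast (by omega : 0 < D)
  apply Real.sin_pos_of_pos_of_lt_pi
  · have : (0 : ℝ) < x := by exact_mod_cast hx
    positivity
  · rw [div_lt_iff₀ hD]
    have : (x : ℝ) < D := by exact_mod_cast hxD
    nlinarith [Real.pi_pos]

lemma f_one {D : ℕ} (hD : 2 ≤ D) : f D 1 = 1 := by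
  unfold f
  have h := sin_pos_of (D := D) (x := 1) one_pos (by omega)
  simp only [Nat.cast_one, mul_one] at h ⊢
  exact div_self h.ne'

lemma f_nonneg {D x : ℕ} (hD : 2 ≤ D) (hx : x ≤ D) : 0 ≤ f D x := by
  unfold f
  have hD' : (0 : ℝ) < D := by exact_mod_cast (by omega : 0 < D)
  apply div_nonneg
  · have := sin_pos_of (D := D) (x := 1) one_pos (by omega)
    simpa using this.le
  · apply Real.sin_nonneg_of_nonneg_of_le_pi
    · positivity
    · rw [div_le_iff₀ hD']
      have : (x : ℝ) ≤ D := by exact_mod_cast hx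
      nlinarith [Real.pi_pos]

/-- The rational upper bound for `f`. -/
lemma f_le {D x : ℕ} (hx : 0 < x) (hxD : 2 * x ≤ D) :
    f D x ≤ 1 / x + 2.2832 * x / (D : ℝ) ^ 2 := by
  have hD' : (0 : ℝ) < D := by exact_mod_cast (by omega : 0 < D)
  have hx' : (0 : ℝ) < x := by exact_mod_cast hx
  have hs := sin_pos_of (D := D) (x := x) hx (by omega)
  set y : ℝ := x / D with hy
  have hy0 : 0 < y := by positivity
  have hy2 : y ≤ 1 / 2 := by
    rw [hy, div_le_iff₀ hD']
    have : (2 : ℝ) * x ≤ D := by exact_mod_cast hxD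
    linarith
  have hb := sin_bound hy0.le hy2
  have e : π * y = π * x / D := by rw [hy]; ring
  rw [e] at hb
  unfold f
  rw [div_le_iff₀ hs]
  have h1 : Real.sin (π / D) ≤ π / D := Real.sin_le (by positivity)
  refine h1.trans ?_
  have e2 : (1 / (x : ℝ) + 2.2832 * x / (D : ℝ) ^ 2) = (1 / x) * (1 + 2.2832 * y ^ 2) := by
    rw [hy]; field_simp
  rw [e2]
  have e3 : π / D = (1 / x) * (π * x / D) := by field_simp
  rw [e3, mul_assoc]
  apply mul_le_mul_of_nonneg_left _ (by positivity)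
  linarith

/-- `f` is decreasing in `x` up to `D / 2`. -/
lemma f_antitone {D x x' : ℕ} (hx : 0 < x) (h : x ≤ x') (hxD : 2 * x' ≤ D) :
    f D x' ≤ f D x := by
  have hD' : (0 : ℝ) < D := by exact_mod_cast (by omega : 0 < D)
  have hs := sin_pos_of (D := D) (x := x) hx (by omega)
  have h1 : 0 ≤ Real.sin (π / D) := by
    have := sin_pos_of (D := D) (x := 1) one_pos (by omega)
    simpa using this.le
  unfold f
  apply div_le_div_of_nonneg_left h1 hs
  apply Real.sin_le_sin_of_le_of_le_pi_div_two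
  · have : 0 ≤ π * x / D := by positivity
    linarith [Real.pi_pos]
  · have : (2 : ℝ) * x' ≤ D := by exact_mod_cast hxD
    rw [div_le_div_iff₀ hD' two_pos]
    nlinarith [Real.pi_pos]
  · have : (x : ℝ) ≤ x' := by exact_mod_cast h
    gcongr

/-! ### first consequences -/

namespace Sys

variable {D : ℕ} {I : Finset ℕ}

lemma le_of_mem (h : Sys D I) {a : ℕ} (ha : a ∈ I) : a ≤ D :=
  (Finset.single_le_sum (f := fun a => a) (fun _ _ => Nat.zero_le _) ha).trans h.sum_le

/-- two distinct members of `I`, with at least three members altogether: `a + b < D` -/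
lemma add_lt (h : Sys D I) (h3 : 3 ≤ I.card) {a b : ℕ} (ha : a ∈ I) (hb : b ∈ I)
    (hab : a ≠ b) : a + b < D := by
  classical
  have hsub : ({a, b} : Finset ℕ) ⊆ I := by
    intro x hx; simp only [mem_insert, mem_singleton] at hx; rcases hx with rfl | rfl <;> assumption
  obtain ⟨c, hc, hc'⟩ : ∃ c ∈ I, c ∉ ({a, b} : Finset ℕ) := by
    by_contra hcon
    push Not at hcon
    have : I ⊆ ({a, b} : Finset ℕ) := hcon
    have := Finset.card_le_card this
    have h2 : ({a, b} : Finset ℕ).card ≤ 2 := Finset.card_le_two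
    omega
  have hs2 : insert c ({a, b} : Finset ℕ) ⊆ I := by
    intro x hx
    rw [Finset.mem_insert] at hx
    rcases hx with rfl | hx
    · exact hc
    · exact hsub hx
  have hle : ∑ x ∈ insert c ({a, b} : Finset ℕ), x ≤ ∑ x ∈ I, x :=
    Finset.sum_le_sum_of_subset hs2
  rw [Finset.sum_insert hc', Finset.sum_pair hab] at hle
  have := h.pos c hc
  have := h.sum_le
  omega

lemma lt_of_mem (h : Sys D I) (h3 : 3 ≤ I.card) {a : ℕ} (ha : a ∈ I) : a < D := by
  obtain ⟨b, hb, hab⟩ : ∃ b ∈ I, b ≠ a := by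
    have : 1 < I.card := by omega
    exact Finset.exists_mem_ne this a
  have := h.add_lt h3 ha hb hab.symm
  omega

lemma six_le (h : Sys D I) (h3 : 3 ≤ I.card) : 6 ≤ D := by
  obtain ⟨a, ha, b, hb, c, hc, hab, hac, hbc⟩ := Finset.two_lt_card.1 h3
  have hle : ∑ x ∈ ({a, b, c} : Finset ℕ), x ≤ ∑ x ∈ I, x :=
    Finset.sum_le_sum_of_subset (by
      intro x hx; simp only [mem_insert, mem_singleton] at hx
      rcases hx with rfl | rfl | rfl <;> assumption)
  rw [Finset.sum_insert (by simp [hab, hac]), Finset.sum_pair hbc] at hle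
  have := h.pos a ha
  have := h.pos b hb
  have := h.pos c hc
  have := h.sum_le
  omega

/-- the inequality `C(a)` in rational form -/
lemma rat (h : Sys D I) (h3 : 3 ≤ I.card) {a : ℕ} (ha : a ∈ I) :
    1 ≤ ∑ b ∈ I.erase a, (1 / (xd D a b : ℝ) + 2.2832 * (xd D a b : ℝ) / (D : ℝ) ^ 2) := by
  refine (h.C a ha).trans (Finset.sum_le_sum fun b hb => ?_)
  rw [Finset.mem_erase] at hb
  have h1 := h.lt_of_mem h3 ha
  exact f_le (xd_pos (by have := h.pos a ha; omega) (h.cop a ha) (h.cop b hb.2))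
    (two_mul_xd_le (by omega) a b)

end Sys

end Pool.Agent.Helper27.FK
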