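import Pool.Agent.Helper27.FK.Comb

/-!
# Fraenkel's conjecture: Case I, `a (a+1) ≤ D`
-/

open Finset Real

namespace Pool.Agent.Helper27.FK

/-- rational version of `gg` -/
def gq (a b : ℕ) : ℚ :=
  (b : ℚ) / (min a (b - a) : ℕ) + (22832 / 10000) * (((min a (b - a) : ℕ) : ℚ) + 2) / b

lemma gg_eq (a b : ℕ) : gg a b = ((gq a b : ℚ) : ℝ) := by
  unfold gg gq
  push_cast
  norm_num

/-- The excess-sum lemma. -/
lemma excess {J : Finset ℕ} {g : ℕ → ℝ} {e : ℕ → ℝ} {ρ : ℝ} {a B : ℕ}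
    (hJ : ∀ b ∈ J, a < b) (he0 : ∀ b ∈ Ioo a B, 0 ≤ e b)
    (h1 : ∀ b ∈ Ioo a B, g b ≤ ρ * b + e b) (h2 : ∀ b, a < b → B ≤ b → g b ≤ ρ * b) :
    ∑ b ∈ J, g b ≤ ρ * ∑ b ∈ J, (b : ℝ) + ∑ b ∈ Ioo a B, e b := by
  classical
  have hsplit : ∑ b ∈ J, g b ≤ ∑ b ∈ J, (ρ * b + if b ∈ Ioo a B then e b else 0) := by
    apply Finset.sum_le_sum
    intro b hb
    split_ifs with hmem
    · exact h1 b hmem
    · rw [add_zero]
      apply h2 b (hJ b hb)
      rw [Finset.mem_Ioo] at hmem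
      have := hJ b hb
      omega
  refine hsplit.trans ?_
  rw [Finset.sum_add_distrib, ← Finset.mul_sum]
  have : ∑ b ∈ J, (if b ∈ Ioo a B then e b else 0) ≤ ∑ b ∈ Ioo a B, e b := by
    rw [← Finset.sum_filter]
    apply Finset.sum_le_sum_of_subset_of_nonneg
    · intro b hb
      exact (Finset.mem_filter.1 hb).2
    · intro b hb _
      exact he0 b hb
  linarith

/-- The numerical check for `a`, slope `ρ` and cut-off `B`, `206 ≤ D`. -/
def chk (a B : ℕ) (ρ : ℚ) : Bool :=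
  decide (2 * a ≤ B) && decide (1 / (a : ℚ) ≤ ρ) && decide (ρ ≤ 1 / 3 + 1 / (a : ℚ)) &&
  decide ((22832 / 10000) * ((a : ℚ) + 2) ≤ (ρ - 1 / a) * B ^ 2) &&
  decide (3 * (22832 / 10000) + 8 / 3 + 2 * (22832 / 10000) / (a : ℚ) +
    2 * (22832 / 10000) * a / 206 + ∑ b ∈ Ioo a B, max 0 (gq a b - ρ * b) <
    (206 - (a : ℚ)) * (1 / 3 + 1 / a - ρ) + ρ)

lemma gg_far {a b B : ℕ} {ρ : ℝ} (ha : 3 ≤ a) (hB : 2 * a ≤ B) (hρ : 1 / (a : ℝ) ≤ ρ)
    (h : 2.2832 * ((a : ℝ) + 2) ≤ (ρ - 1 / a) * B ^ 2) (hb : B ≤ b) : gg a b ≤ ρ * b := by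
  unfold gg
  have hmin : min a (b - a) = a := min_eq_left (by omega)
  rw [hmin]
  have har : (3 : ℝ) ≤ a := by exact_mod_cast ha
  have hbr : (B : ℝ) ≤ b := by exact_mod_cast hb
  have hBr : (2 : ℝ) * a ≤ B := by exact_mod_cast hB
  have hb0 : (0 : ℝ) < b := by linarith
  have h1 : 2.2832 * ((a : ℝ) + 2) / b ≤ (ρ - 1 / a) * b := by
    rw [div_le_iff₀ hb0]
    have h2 : (ρ - 1 / a) * (B : ℝ) ^ 2 ≤ (ρ - 1 / a) * (b * b) := by
      apply mul_le_mul_of_nonneg_left _ (by linarith)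
      nlinarith
    linarith
  have h3 : (b : ℝ) / a = 1 / a * b := by ring
  rw [h3]
  linarith

theorem chk_sound {D : ℕ} {I : Finset ℕ} {a j B : ℕ} {ρ : ℚ} (h : Sys D I) (h3 : 3 ≤ I.card)
    (h1 : 1 ∈ I) (hd : Dev I a j) (h4a : 4 * a ≤ D + 1) (hD : 206 ≤ D)
    (hchk : chk a B ρ = true) : False := by
  unfold chk at hchk
  simp only [Bool.and_eq_true, decide_eq_true_eq] at hchk
  obtain ⟨⟨⟨⟨c1, c2⟩, c3⟩, c4⟩, c5⟩ := hchk
  have ha3 := hd.three_le
  have har : (3 : ℝ) ≤ a := by exact_mod_cast ha3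
  have hDr : (206 : ℝ) ≤ D := by exact_mod_cast hD
  have c2' : 1 / (a : ℝ) ≤ (ρ : ℝ) := by
    have : ((1 / (a : ℚ) : ℚ) : ℝ) ≤ ((ρ : ℚ) : ℝ) := by exact_mod_cast c2
    push_cast at this; exact this
  have c3' : (ρ : ℝ) ≤ 1 / 3 + 1 / (a : ℝ) := by
    have : ((ρ : ℚ) : ℝ) ≤ ((1 / 3 + 1 / (a : ℚ) : ℚ) : ℝ) := by exact_mod_cast c3
    push_cast at this; exact this
  have c4' : 2.2832 * ((a : ℝ) + 2) ≤ ((ρ : ℝ) - 1 / a) * B ^ 2 := by
    have : (((22832 / 10000) * ((a : ℚ) + 2) : ℚ) : ℝ) ≤ (((ρ - 1 / a) * B ^ 2 : ℚ) : ℝ) := by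
      exact_mod_cast c4
    push_cast at this
    norm_num at this ⊢
    exact this
  have c5' : 3 * 2.2832 + 8 / 3 + 2 * 2.2832 / (a : ℝ) + 2 * 2.2832 * a / 206 +
      ∑ b ∈ Ioo a B, max 0 (gg a b - ρ * b) < (206 - (a : ℝ)) * (1 / 3 + 1 / a - ρ) + ρ := by
    have : ((3 * (22832 / 10000) + 8 / 3 + 2 * (22832 / 10000) / (a : ℚ) +
      2 * (22832 / 10000) * a / 206 + ∑ b ∈ Ioo a B, max 0 (gq a b - ρ * b) : ℚ) : ℝ) <
      (((206 - (a : ℚ)) * (1 / 3 + 1 / a - ρ) + ρ : ℚ) : ℝ) := by exact_mod_cast c5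
    rw [Rat.cast_add, Rat.cast_sum] at this
    simp only [Rat.cast_max, Rat.cast_sub, Rat.cast_mul, Rat.cast_natCast, Rat.cast_zero,
      ← gg_eq] at this
    push_cast at this
    norm_num at this ⊢
    exact this
  have hcomb := h.combined h3 h1 hd h4a
  have hex := excess (J := I.filter (a < ·)) (g := gg a)
    (e := fun b => max 0 (gg a b - ρ * b)) (ρ := (ρ : ℝ)) (a := a) (B := B)
    (fun b hb => (Finset.mem_filter.1 hb).2)
    (fun b _ => le_max_left _ _)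
    (fun b _ => by
      have := le_max_right 0 (gg a b - (ρ : ℝ) * b)
      linarith)
    (fun b _ hBb => gg_far ha3 c1 c2' c4' hBb)
  have hmass := h.mass hd
  have hpow : (2 : ℝ) ≤ 2 ^ (j + 1) := by
    have : (2 : ℝ) ^ 1 ≤ 2 ^ (j + 1) := pow_le_pow_right₀ (by norm_num) (by omega)
    simpa using this
  have hρ0 : 0 ≤ (ρ : ℝ) := le_trans (by positivity) c2'
  have e1 : (ρ : ℝ) * ∑ b ∈ I.filter (a < ·), (b : ℝ) ≤ ρ * (D - a - 1) :=
    mul_le_mul_of_nonneg_left (by linarith) hρ0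
  have e2 : 2 * 2.2832 * (a : ℝ) / D ≤ 2 * 2.2832 * a / 206 := by
    apply div_le_div_of_nonneg_left _ _ hDr <;> positivity
  have e3 : (206 - (a : ℝ)) * (1 / 3 + 1 / a - ρ) ≤ (D - a) * (1 / 3 + 1 / a - ρ) :=
    mul_le_mul_of_nonneg_right (by linarith) (by linarith)
  nlinarith

lemma checks : (chk 3 21 (36/100) && chk 4 22 (28/100) && chk 5 20 (24/100) &&
    chk 6 21 (21/100) && chk 7 19 (20/100) && chk 8 18 (20/100) && chk 9 18 (20/100) &&
    chk 10 20 (20/100) && chk 11 22 (20/100) && chk 12 24 (20/100) && chk 13 26 (20/100) &&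
    chk 14 28 (20/100)) = true := by
  decide +kernel

/-- Far elements, uniform in `a ≥ 15`. -/
lemma gg_far15 {a b : ℕ} (ha : 15 ≤ a) (hb : a + 7 ≤ b) : gg a b ≤ 1 / 5 * b := by
  unfold gg
  set t : ℕ := min a (b - a) with ht
  have ht7 : 7 ≤ t := le_min (by omega) (by omega)
  have ht2 : 2 * t ≤ b := by
    have h1 : t ≤ a := min_le_left _ _
    have h2 : t ≤ b - a := min_le_right _ _
    omega
  have h7 : (7 : ℝ) ≤ t := by exact_mod_cast ht7
  have h2 : (2 : ℝ) * t ≤ b := by exact_mod_cast ht2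
  have hb22 : (22 : ℝ) ≤ b := by exact_mod_cast (by omega : 22 ≤ b)
  have hb0 : (0 : ℝ) < b := by linarith
  have ht0 : (0 : ℝ) < t := by linarith
  rw [div_add_div _ _ ht0.ne' hb0.ne', div_le_iff₀ (by positivity)]
  -- b² + K t (t+2) ≤ b t b / 5
  have hconv : ((t : ℝ) - 7) * (t - b / 2) ≤ 0 :=
    mul_nonpos_of_nonneg_of_nonpos (by linarith) (by linarith)
  have e1 : (t : ℝ) * t ≤ (7 + b / 2) * t - 7 * b / 2 := by nlinarith
  have e2 : 0 ≤ ((t : ℝ) - 7) * (b - 22) := mul_nonneg (by linarith) (by linarith)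
  have e3 : 0 ≤ ((t : ℝ) - 7) * (b - 22) * b := mul_nonneg e2 hb0.le
  nlinarith [mul_nonneg (sub_nonneg.2 hb22) (sub_nonneg.2 hb22)]

lemma gg_near {a t : ℕ} (h : t ≤ a) :
    gg a (a + t) = ((a : ℝ) + t) / t + 2.2832 * ((t : ℝ) + 2) / (a + t) := by
  unfold gg
  have : min a (a + t - a) = t := by omega
  rw [this]
  push_cast
  ring

theorem caseI_large {D : ℕ} {I : Finset ℕ} {a j : ℕ} (h : Sys D I) (h3 : 3 ≤ I.card)
    (h1 : 1 ∈ I) (hd : Dev I a j) (ha : 15 ≤ a) (hDa : a * (a + 1) ≤ D) : False := by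
  have h4a : 4 * a ≤ D + 1 := by nlinarith
  have har : (15 : ℝ) ≤ a := by exact_mod_cast ha
  have hDr : (a : ℝ) * (a + 1) ≤ D := by exact_mod_cast hDa
  have hcomb := h.combined h3 h1 hd h4a
  set e : ℕ → ℝ := fun b => max 0 (gg a b - 1 / 5 * b) with he
  have hex := excess (J := I.filter (a < ·)) (g := gg a)
    (e := e) (ρ := 1 / 5) (a := a) (B := a + 7)
    (fun b hb => (Finset.mem_filter.1 hb).2)
    (fun b _ => le_max_left _ _)
    (fun b _ => by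
      have := le_max_right 0 (gg a b - 1 / 5 * (b : ℝ))
      simp only [he]
      linarith)
    (fun b _ hBb => gg_far15 ha hBb)
  have hset : Ioo a (a + 7) = {a + 1, a + 2, a + 3, a + 4, a + 5, a + 6} := by
    ext x; simp only [mem_Ioo, mem_insert, mem_singleton]; omega
  have hsum : ∑ b ∈ Ioo a (a + 7), e b =
      e (a + 1) + e (a + 2) + e (a + 3) + e (a + 4) + e (a + 5) + e (a + 6) := by
    rw [hset]
    rw [Finset.sum_insert (by simp), Finset.sum_insert (by simp), Finset.sum_insert (by simp),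
      Finset.sum_insert (by simp), Finset.sum_insert (by simp), Finset.sum_singleton]
    ring
  have hnear : ∀ t : ℕ, 1 ≤ t → t ≤ 6 → ∀ c : ℝ, 0 ≤ c →
      ((a : ℝ) + t) / t + 2.2832 * ((t : ℝ) + 2) / (15 + t) - 1 / 5 * (a + t) ≤ c →
      e (a + t) ≤ c := by
    intro t ht1 ht6 c hc hle
    simp only [he]
    apply max_le hc
    rw [gg_near (by omega)]
    have htr : (1 : ℝ) ≤ t := by exact_mod_cast ht1
    have : 2.2832 * ((t : ℝ) + 2) / (a + t) ≤ 2.2832 * ((t : ℝ) + 2) / (15 + t) := by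
      apply div_le_div_of_nonneg_left <;> linarith
    push_cast
    linarith
  have n1 := hnear 1 (by norm_num) (by norm_num) (4 / 5 * (a + 1) + 0.4281) (by positivity)
    (by norm_num; linarith)
  have n2 := hnear 2 (by norm_num) (by norm_num) (3 / 10 * (a + 2) + 0.5373) (by positivity)
    (by norm_num; linarith)
  have n3 := hnear 3 (by norm_num) (by norm_num) (2 / 15 * (a + 3) + 0.6343) (by positivity)
    (by norm_num; linarith)
  have n4 := hnear 4 (by norm_num) (by norm_num) (1 / 20 * (a + 4) + 0.7211) (by positivity)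
    (by norm_num; linarith)
  have n5 := hnear 5 (by norm_num) (by norm_num) 0.7992 (by positivity)
    (by norm_num; linarith)
  have n6 := hnear 6 (by norm_num) (by norm_num) 0.17 (by positivity)
    (by norm_num; linarith)
  have hmass := h.mass hd
  have hpow : (2 : ℝ) ≤ 2 ^ (j + 1) := by
    have : (2 : ℝ) ^ 1 ≤ 2 ^ (j + 1) := pow_le_pow_right₀ (by norm_num) (by omega)
    simpa using this
  have e1 : 2 * 2.2832 / (a : ℝ) ≤ 2 * 2.2832 / 15 := by
    apply div_le_div_of_nonneg_left _ _ har <;> norm_num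
  have hD0 : (0 : ℝ) < D := by nlinarith
  have e2 : 2 * 2.2832 * (a : ℝ) / D ≤ 2 * 2.2832 / 16 := by
    rw [div_le_div_iff₀ hD0 (by norm_num)]
    nlinarith
  have e3 : ((D : ℝ) - a) * (1 / 3 + 1 / a) = (D - a) * (1 / 5) + (D - a) * (2 / 15 + 1 / a) := by
    ring
  have e4 : (a : ℝ) * a * (2 / 15 + 1 / a) ≤ (D - a) * (2 / 15 + 1 / a) :=
    mul_le_mul_of_nonneg_right (by nlinarith) (by positivity)
  have e5 : (a : ℝ) * a * (2 / 15 + 1 / a) = 2 / 15 * a * a + a := by field_simp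
  rw [e3] at hcomb
  nlinarith

/-- **Case I**: `206 ≤ D`, `a (a+1) ≤ D`. -/
theorem caseI {D : ℕ} {I : Finset ℕ} {a j : ℕ} (h : Sys D I) (h3 : 3 ≤ I.card)
    (h1 : 1 ∈ I) (hd : Dev I a j) (hD : 206 ≤ D) (hDa : a * (a + 1) ≤ D) : False := by
  have ha3 := hd.three_le
  have h4a : 4 * a ≤ D + 1 := by nlinarith
  rcases Nat.lt_or_ge a 15 with hlt | hge
  · have hc := checks
    simp only [Bool.and_eq_true] at hc
    obtain ⟨⟨⟨⟨⟨⟨⟨⟨⟨⟨⟨c3, c4⟩, c5⟩, c6⟩, c7⟩, c8⟩, c9⟩, c10⟩, c11⟩, c12⟩, c13⟩, c14⟩ := hc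
    interval_cases a
    · exact chk_sound h h3 h1 hd h4a hD c3
    · exact chk_sound h h3 h1 hd h4a hD c4
    · exact chk_sound h h3 h1 hd h4a hD c5
    · exact chk_sound h h3 h1 hd h4a hD c6
    · exact chk_sound h h3 h1 hd h4a hD c7
    · exact chk_sound h h3 h1 hd h4a hD c8
    · exact chk_sound h h3 h1 hd h4a hD c9
    · exact chk_sound h h3 h1 hd h4a hD c10
    · exact chk_sound h h3 h1 hd h4a hD c11
    · exact chk_sound h h3 h1 hd h4a hD c12
    · exact chk_sound h h3 h1 hd h4a hD c13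
    · exact chk_sound h h3 h1 hd h4a hD c14
  · exact caseI_large h h3 h1 hd hge hDa

end Pool.Agent.Helper27.FK
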