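import Pool.Agent.Helper27.FK.Prof

/-!
# Fraenkel's conjecture: the contribution of the chain `{1, 2, …, 2^j}` to `C(a)`
-/

open Finset Real

namespace Pool.Agent.Helper27.FK

namespace Sys

variable {D : ℕ} {I : Finset ℕ}

/-- The term of a divisor of `a`. -/
lemma term_dvd (h : Sys D I) (h3 : 3 ≤ I.card) {a b : ℕ} (ha : a ∈ I) (hb : b ∈ I)
    (h2a : 2 * a ≤ D) (hdvd : b ∣ a) :
    ((D : ℝ) - a) * f D (xd D a b) ≤ ((D : ℝ) - a) / a * b + 2.2832 * a / (b * D) := by
  have haD := h.lt_of_mem h3 ha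
  have hapos := h.pos a ha
  have hbpos := h.pos b hb
  obtain ⟨x, hx⟩ := hdvd
  have hxpos : 0 < x := by
    rcases Nat.eq_zero_or_pos x with rfl | h0
    · simp at hx; omega
    · exact h0
  have hxle : x ≤ a := by rw [hx]; exact Nat.le_mul_of_pos_left x hbpos
  have hxd : xd D a b = x := by
    apply xd_eq_of (by omega) (h.cop b hb) (by omega)
    left
    rw [hx]; push_cast; simp
  rw [hxd]
  have hf := f_le (D := D) (x := x) hxpos (by omega)
  have har : (0 : ℝ) < a := by exact_mod_cast hapos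
  have hbr : (0 : ℝ) < b := by exact_mod_cast hbpos
  have hxr : (0 : ℝ) < x := by exact_mod_cast hxpos
  have hDr : (a : ℝ) < D := by exact_mod_cast haD
  have hD0 : (0 : ℝ) < D := by linarith
  have hax : (a : ℝ) = b * x := by exact_mod_cast hx
  have h1 : ((D : ℝ) - a) * f D x ≤ ((D : ℝ) - a) * (1 / x + 2.2832 * x / (D : ℝ) ^ 2) :=
    mul_le_mul_of_nonneg_left hf (by linarith)
  refine h1.trans ?_
  have e1 : ((D : ℝ) - a) * (1 / x) = ((D : ℝ) - a) / a * b := by
    rw [hax]; field_simp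
  have e2 : ((D : ℝ) - a) * (2.2832 * x / (D : ℝ) ^ 2) ≤ 2.2832 * a / (b * D) := by
    rw [mul_div_assoc', div_le_div_iff₀ (by positivity) (by positivity)]
    have e3 : ((D : ℝ) - a) * (2.2832 * x) * (b * D) = ((D : ℝ) - a) * (2.2832 * a * D) := by
      rw [hax]; ring
    rw [e3]
    have : ((D : ℝ) - a) * (2.2832 * a * D) ≤ D * (2.2832 * a * D) :=
      mul_le_mul_of_nonneg_right (by linarith) (by positivity)
    nlinarith
  rw [mul_add, e1]
  linarith

/-- The crude bound for every term of the chain. -/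
lemma term_crude (h : Sys D I) (h3 : 3 ≤ I.card) {a b : ℕ} (ha : a ∈ I) (hb : b ∈ I)
    (h2a : 2 * a ≤ D) :
    ((D : ℝ) - a) * f D (xd D a b) ≤ ((D : ℝ) - a) / a * b + 2.2832 / b := by
  have haD := h.lt_of_mem h3 ha
  have hapos := h.pos a ha
  have hbpos := h.pos b hb
  have har : (0 : ℝ) < a := by exact_mod_cast hapos
  have hbr : (0 : ℝ) < b := by exact_mod_cast hbpos
  have hDr : (a : ℝ) < D := by exact_mod_cast haD
  have hD0 : (0 : ℝ) < D := by linarith
  by_cases hdvd : b ∣ a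
  · refine (h.term_dvd h3 ha hb h2a hdvd).trans ?_
    have : 2.2832 * (a : ℝ) / (b * D) ≤ 2.2832 / b := by
      rw [div_le_div_iff₀ (by positivity) hbr]
      nlinarith [mul_pos har hbr, mul_pos hbr hD0]
    linarith
  · refine (h.prof_one h3 ha hb hdvd).trans ?_
    have h2ar : (2 : ℝ) * a ≤ D := by exact_mod_cast h2a
    have : 1 ≤ ((D : ℝ) - a) / a := by rw [le_div_iff₀ har]; linarith
    nlinarith

end Sys

lemma geom_inv_le (n : ℕ) : ∑ i ∈ range n, (1 / (2 : ℝ) ^ i) ≤ 2 := by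
  have : ∀ n : ℕ, ∑ i ∈ range n, (1 / (2 : ℝ) ^ i) = 2 - 2 / 2 ^ n := by
    intro n
    induction n with
    | zero => simp
    | succ n ih =>
      rw [Finset.sum_range_succ, ih, pow_succ]
      field_simp
      ring
  rw [this n]
  have : (0 : ℝ) ≤ 2 / 2 ^ n := by positivity
  linarith

lemma geom_two (n : ℕ) : ∑ i ∈ range n, ((2 : ℝ) ^ i) = 2 ^ n - 1 := by
  induction n with
  | zero => simp
  | succ n ih => rw [Finset.sum_range_succ, ih, pow_succ]; ring

namespace Sys

variable {D : ℕ} {I : Finset ℕ}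

/-- The crude chain bound. -/
lemma chain_crude (h : Sys D I) (h3 : 3 ≤ I.card) {a j : ℕ} (hd : Dev I a j)
    (h2a : 2 * a ≤ D) :
    ∑ b ∈ chain j, ((D : ℝ) - a) * f D (xd D a b) ≤
      ((D : ℝ) - a) / a * (2 ^ (j + 1) - 1) + 2 * 2.2832 := by
  rw [sum_chain]
  have h1 : ∀ i ∈ range (j + 1), ((D : ℝ) - a) * f D (xd D a (2 ^ i)) ≤
      ((D : ℝ) - a) / a * 2 ^ i + 2.2832 * (1 / 2 ^ i) := by
    intro i hi
    have hmem := hd.chain_subset (Nat.lt_succ_iff.1 (Finset.mem_range.1 hi))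
    have := h.term_crude h3 hd.mem hmem h2a
    push_cast at this
    calc _ ≤ _ := this
      _ = _ := by ring
  refine (Finset.sum_le_sum h1).trans ?_
  rw [Finset.sum_add_distrib, ← Finset.mul_sum, ← Finset.mul_sum, geom_two]
  have := geom_inv_le (j + 1)
  nlinarith

/-- The tail terms: if `v < i` then `t ≥ 2^v`. -/
lemma term_tail (h : Sys D I) (h3 : 3 ≤ I.card) {a v i : ℕ} (ha : a ∈ I) (hb : 2 ^ i ∈ I)
    (hv : 2 ^ v ∣ a) (hvi : v < i) (hnd : ¬ 2 ^ i ∣ a) :
    ((D : ℝ) - a) * f D (xd D a (2 ^ i)) ≤ 2 ^ (i - v) + 2.2832 / 2 ^ (i - v) := by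
  have haD := h.lt_of_mem h3 ha
  obtain ⟨t, ht⟩ := xd_spec (h.cop _ hb) haD
  have hcop : Nat.Coprime (2 ^ v) D := by
    have h1 := h.cop _ hb
    exact Nat.Coprime.coprime_dvd_left (pow_dvd_pow 2 hvi.le) h1
  have hb2 : 2 ^ v ∣ 2 ^ i * xd D a (2 ^ i) := Dvd.dvd.mul_right (pow_dvd_pow 2 hvi.le) _
  have hdt : 2 ^ v ∣ t * D := by
    rcases ht with ht | ht
    · rw [ht] at hb2
      exact (Nat.dvd_add_left hv).1 hb2
    · rw [← ht]; exact Dvd.dvd.add hb2 hv
  have hdt2 : 2 ^ v ∣ t := hcop.dvd_of_dvd_mul_right hdt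
  have ht0 : 0 < t := by
    rcases Nat.eq_zero_or_pos t with rfl | h0
    · exfalso
      rcases ht with ht | ht
      · exact hnd ⟨xd D a (2 ^ i), by omega⟩
      · have := h.pos a ha
        omega
    · exact h0
  have htv : 2 ^ v ≤ t := Nat.le_of_dvd ht0 hdt2
  have hle : 2 ^ v * D ≤ 2 ^ i * xd D a (2 ^ i) + a := by
    have : 2 ^ v * D ≤ t * D := Nat.mul_le_mul_right D htv
    rcases ht with ht | ht <;> omega
  have := h.prof_nat h3 ha hb (Nat.one_le_two_pow) hle
  push_cast at this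
  refine this.trans (le_of_eq ?_)
  have e : (2 : ℝ) ^ i = 2 ^ (i - v) * 2 ^ v := by
    rw [← pow_add]; congr 1; omega
  rw [e]
  field_simp

/-- The chain lemma. -/
lemma chain_net (h : Sys D I) (h3 : 3 ≤ I.card) {a j : ℕ} (hd : Dev I a j)
    (h4a : 4 * a ≤ D + 1) :
    ∑ b ∈ chain j, ((D : ℝ) - a) * f D (xd D a b) ≤
      ((D : ℝ) - a) * (2 / 3 - 1 / a) + 8 / 3 + 2.2832 + 2 * 2.2832 * a / D := by
  have ha3 := hd.three_le
  have h2a : 2 * a ≤ D := by omega
  have haD := h.lt_of_mem h3 hd.mem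
  have har : (0 : ℝ) < a := by exact_mod_cast (by omega : 0 < a)
  have hDr : (a : ℝ) < D := by exact_mod_cast haD
  have hD0 : (0 : ℝ) < D := by linarith
  have h4r : (4 : ℝ) * a ≤ D + 1 := by exact_mod_cast h4a
  rw [sum_chain]
  -- terms dividing `a`
  have hdiv : ∀ n : ℕ, n ≤ j + 1 → (∀ i < n, 2 ^ i ∣ a) →
      ∑ i ∈ range n, ((D : ℝ) - a) * f D (xd D a (2 ^ i)) ≤
      ((D : ℝ) - a) / a * (2 ^ n - 1) + 2 * 2.2832 * a / D := by
    intro n hn hall
    have h1 : ∀ i ∈ range n, ((D : ℝ) - a) * f D (xd D a (2 ^ i)) ≤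
        ((D : ℝ) - a) / a * 2 ^ i + 2.2832 * a / D * (1 / 2 ^ i) := by
      intro i hi
      rw [Finset.mem_range] at hi
      have hmem := hd.chain_subset (i := i) (by omega)
      have := h.term_dvd h3 hd.mem hmem h2a (hall i hi)
      push_cast at this
      refine this.trans (le_of_eq ?_)
      field_simp
    refine (Finset.sum_le_sum h1).trans ?_
    rw [Finset.sum_add_distrib, ← Finset.mul_sum, ← Finset.mul_sum, geom_two]
    have h2 := geom_inv_le n
    have h3 : 2.2832 * (a : ℝ) / D * ∑ i ∈ range n, (1 / (2 : ℝ) ^ i) ≤ 2.2832 * a / D * 2 :=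
      mul_le_mul_of_nonneg_left h2 (by positivity)
    have e : 2.2832 * (a : ℝ) / D * 2 = 2 * 2.2832 * a / D := by ring
    linarith
  by_cases hj : 2 ^ j ∣ a
  · -- all elements of the chain divide `a`
    have h1 := hdiv (j + 1) le_rfl (fun i hi => (pow_dvd_pow 2 (Nat.lt_succ_iff.1 hi)).trans hj)
    have h3j : 3 * 2 ^ j ≤ a := by
      obtain ⟨c, hc⟩ := hj
      have hlt := hd.lt
      have hne := hd.ne
      have hp : 0 < 2 ^ j := by positivity
      have hc3 : 3 ≤ c := by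
        by_contra hcon
        have : c = 0 ∨ c = 1 ∨ c = 2 := by omega
        rcases this with rfl | rfl | rfl
        · omega
        · omega
        · apply hne; rw [hc, pow_succ]
      rw [hc]
      calc 3 * 2 ^ j = 2 ^ j * 3 := by ring
        _ ≤ 2 ^ j * c := Nat.mul_le_mul_left _ hc3
    have h3r : (3 : ℝ) * 2 ^ j ≤ a := by exact_mod_cast h3j
    have h5 : ((D : ℝ) - a) / a * (2 ^ (j + 1) - 1) ≤ ((D : ℝ) - a) * (2 / 3 - 1 / a) := by
      have e : ((D : ℝ) - a) / a * (2 ^ (j + 1) - 1) =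
          ((D : ℝ) - a) * ((2 ^ (j + 1) - 1) / a) := by ring
      rw [e]
      apply mul_le_mul_of_nonneg_left _ (by linarith)
      rw [div_le_iff₀ har, pow_succ]
      have : (2 / 3 - 1 / (a : ℝ)) * a = 2 / 3 * a - 1 := by field_simp
      rw [this]
      linarith
    linarith
  · -- there is a largest power of two `2^v ∣ a`, `v < j`
    obtain ⟨v, o, ho, hao⟩ := Nat.exists_eq_two_pow_mul_odd (n := a) (by omega)
    have hvj : v < j := by
      by_contra hcon
      exact hj ((pow_dvd_pow 2 (not_lt.1 hcon)).trans ⟨o, hao⟩)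
    have hnd : ∀ i, v < i → ¬ 2 ^ i ∣ a := by
      intro i hi hdv
      have h6 : 2 ^ (v + 1) ∣ a := (pow_dvd_pow 2 hi).trans hdv
      rw [hao, pow_succ] at h6
      have h7 : 2 ∣ o := (Nat.mul_dvd_mul_iff_left (by positivity)).1 h6
      have := Nat.odd_iff.1 ho
      omega
    have hlt := hd.lt
    -- `2^(j-v) ≤ o - 1`
    obtain ⟨k, hk⟩ : ∃ k, j = v + (k + 1) := ⟨j - v - 1, by omega⟩
    have hko : 2 ^ (k + 1) < o := by
      have h6 : 2 ^ v * 2 ^ (k + 1) < 2 ^ v * o := by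
        rw [← pow_add, ← hk, ← hao]; exact hlt
      exact lt_of_mul_lt_mul_left h6 (by positivity)
    have hko' : 2 ^ (k + 1) + 1 ≤ o := hko
    have ho3 : 3 ≤ o := by
      have : 2 ≤ 2 ^ (k + 1) := by
        calc 2 = 2 ^ 1 := by norm_num
          _ ≤ 2 ^ (k + 1) := Nat.pow_le_pow_right (by norm_num) (by omega)
      omega
    have h1 := hdiv (v + 1) (by omega) (fun i hi => (pow_dvd_pow 2 (by omega)).trans ⟨o, hao⟩)
    have e1 : j + 1 = (v + 1) + (k + 1) := by omega
    rw [e1, Finset.sum_range_add]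
    have h2 : ∑ x ∈ range (k + 1), ((D : ℝ) - a) * f D (xd D a (2 ^ (v + 1 + x))) ≤
        2 * 2 ^ (k + 1) - 2 + 2.2832 := by
      have h7 : ∀ x ∈ range (k + 1), ((D : ℝ) - a) * f D (xd D a (2 ^ (v + 1 + x))) ≤
          2 * 2 ^ x + 2.2832 / 2 * (1 / 2 ^ x) := by
        intro x hx
        rw [Finset.mem_range] at hx
        have hmem := hd.chain_subset (i := v + 1 + x) (by omega)
        have := h.term_tail h3 hd.mem hmem ⟨o, hao⟩ (by omega) (hnd _ (by omega))
        refine this.trans (le_of_eq ?_)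
        have e : v + 1 + x - v = x + 1 := by omega
        rw [e, pow_succ]
        field_simp
      refine (Finset.sum_le_sum h7).trans ?_
      rw [Finset.sum_add_distrib, ← Finset.mul_sum, ← Finset.mul_sum, geom_two]
      have := geom_inv_le (k + 1)
      nlinarith
    have hor : (3 : ℝ) ≤ o := by exact_mod_cast ho3
    have hkor : (2 : ℝ) ^ (k + 1) + 1 ≤ o := by exact_mod_cast hko'
    have haor : (a : ℝ) = 2 ^ v * o := by exact_mod_cast hao
    have hoa : (o : ℝ) ≤ a := by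
      have : o ≤ a := by
        rw [hao]; exact Nat.le_mul_of_pos_left o (by positivity)
      exact_mod_cast this
    -- `(D-a)(2^(v+1)-1)/a = (D-a)(2/o - 1/a)`
    have e2 : ((D : ℝ) - a) / a * (2 ^ (v + 1) - 1) = ((D : ℝ) - a) * (2 / o - 1 / a) := by
      have hv0 : (2 : ℝ) ^ v ≠ 0 := by positivity
      have ho0 : (o : ℝ) ≠ 0 := by linarith
      rw [pow_succ]
      have : (2 : ℝ) ^ v = a / o := by rw [haor]; field_simp
      rw [this]
      field_simp
    rw [e2] at h1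
    -- final estimate
    have key : 2 * ((2 : ℝ) ^ (k + 1)) - 2 - 8 / 3 ≤ ((D : ℝ) - a) * (2 / 3 - 2 / o) := by
      have h8 : ((3 : ℝ) * o - 1) * (2 / 3 - 2 / o) ≤ ((D : ℝ) - a) * (2 / 3 - 2 / o) := by
        apply mul_le_mul_of_nonneg_right
        · linarith
        · have : (2 : ℝ) / o ≤ 2 / 3 := div_le_div_of_nonneg_left (by norm_num) (by norm_num) hor
          linarith
      have h9 : ((3 : ℝ) * o - 1) * (2 / 3 - 2 / o) = 2 * o - 6 - 2 / 3 + 2 / o := by
        field_simp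
        ring
      have h10 : (0 : ℝ) ≤ 2 / o := by positivity
      linarith
    nlinarith

end Sys

end Pool.Agent.Helper27.FK
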