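import Pool.Agent.Helper27.FK.Chain

/-!
# Fraenkel's conjecture: the combination `2 C(1) + C(a)`
-/

open Finset Real

namespace Pool.Agent.Helper27.FK

/-- The bound for an element `b > a`: `g a b = b/t + K (t+2)/b` with `t = min a (b-a)`. -/
noncomputable def gg (a b : ℕ) : ℝ :=
  (b : ℝ) / (min a (b - a) : ℕ) + 2.2832 * (((min a (b - a) : ℕ) : ℝ) + 2) / b

namespace Sys

variable {D : ℕ} {I : Finset ℕ} {a j : ℕ}

/-- If `b x_1b = D ± 1` and `a < b` then `t_ab ≥ min a (b-a)`. -/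
lemma t_ge (h : Sys D I) (h3 : 3 ≤ I.card) {a b : ℕ} (ha : a ∈ I) (hb : b ∈ I) (hab : a < b)
    (hgood : b * xd D 1 b = D + 1 ∨ b * xd D 1 b + 1 = D) :
    min a (b - a) * D ≤ b * xd D a b + a := by
  have haD := h.lt_of_mem h3 ha
  have hapos := h.pos a ha
  obtain ⟨t, ht⟩ := xd_spec (h.cop b hb) haD
  have key : (b : ℤ) ∣ (t : ℤ) - a ∨ (b : ℤ) ∣ (t : ℤ) + a := by
    rcases hgood with hg | hg
    · have hg' : (b : ℤ) * xd D 1 b = D + 1 := by exact_mod_cast hg
      have hD : (D : ℤ) = b * xd D 1 b - 1 := by linarith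
      rcases ht with ht | ht
      · have ht' : (b : ℤ) * xd D a b = t * D + a := by exact_mod_cast ht
        left
        refine ⟨t * xd D 1 b - xd D a b, ?_⟩
        rw [hD] at ht'
        linear_combination ht'
      · have ht' : (b : ℤ) * xd D a b + a = t * D := by exact_mod_cast ht
        right
        refine ⟨t * xd D 1 b - xd D a b, ?_⟩
        rw [hD] at ht'
        linear_combination ht'
    · have hg' : (b : ℤ) * xd D 1 b + 1 = D := by exact_mod_cast hg
      have hD : (D : ℤ) = b * xd D 1 b + 1 := by linarith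
      rcases ht with ht | ht
      · have ht' : (b : ℤ) * xd D a b = t * D + a := by exact_mod_cast ht
        right
        refine ⟨xd D a b - t * xd D 1 b, ?_⟩
        rw [hD] at ht'
        linear_combination -ht'
      · have ht' : (b : ℤ) * xd D a b + a = t * D := by exact_mod_cast ht
        left
        refine ⟨xd D a b - t * xd D 1 b, ?_⟩
        rw [hD] at ht'
        linear_combination -ht'
  have hmin : min a (b - a) ≤ t := by
    rcases key with hk | hk
    · rcases Nat.lt_or_ge t a with hlt | hge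
      · exfalso
        have h5 : (b : ℤ) ∣ (a : ℤ) - t := by
          have := (dvd_neg (α := ℤ)).2 hk
          simpa using this
        have h6 := Int.le_of_dvd (by omega) h5
        omega
      · exact (min_le_left _ _).trans hge
    · have h6 := Int.le_of_dvd (by omega) hk
      have : b - a ≤ t := by omega
      exact (min_le_right _ _).trans this
  have : min a (b - a) * D ≤ t * D := Nat.mul_le_mul_right D hmin
  rcases ht with ht | ht <;> omega

/-- The contribution of an element `b > a` to `2 C(1) + C(a)`. -/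
lemma elem_bound (h : Sys D I) (h3 : 3 ≤ I.card) (h1 : 1 ∈ I) {a b : ℕ} (ha : a ∈ I)
    (ha3 : 3 ≤ a) (hb : b ∈ I) (hab : a < b) :
    2 * (((D : ℝ) - 1) * f D (xd D 1 b)) + ((D : ℝ) - a) * f D (xd D a b) ≤
      2 * b + gg a b := by
  have hbr : (4 : ℝ) ≤ b := by exact_mod_cast (by omega : 4 ≤ b)
  set t : ℕ := min a (b - a) with ht
  have ht1 : 1 ≤ t := by rw [ht]; exact le_min (by omega) (by omega)
  have htr : (1 : ℝ) ≤ t := by exact_mod_cast ht1
  have hbpos : (0 : ℝ) < b := by linarith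
  unfold gg
  rw [← ht]
  by_cases hg : b * xd D 1 b = D + 1 ∨ b * xd D 1 b + 1 = D
  · have e1 := h.prof_one_one h3 h1 hb (by omega)
    have e2 := h.prof_nat h3 ha hb ht1 (h.t_ge h3 ha hb hab hg)
    have e3 : 2.2832 * ((t : ℝ) + 2) / b = 2.2832 * t / b + 2 * (2.2832 / b) := by ring
    rw [e3]
    linarith
  · push Not at hg
    have e1 := h.prof_one_bad h3 h1 hb (by omega) hg.1 hg.2
    have e2 := h.prof_one h3 ha hb (fun hdvd => by
      have := Nat.le_of_dvd (by omega) hdvd; omega)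
    have e3 : 2.2832 * ((t : ℝ) + 2) / b = 2.2832 * t / b + 2 * (2.2832 / b) := by ring
    have e4 : 3 * 2.2832 / (b : ℝ) ≤ b / t + 2.2832 * t / b := by
      rw [div_add_div _ _ (by linarith) (by linarith), div_le_div_iff₀ hbpos (by positivity)]
      have : 3 * 2.2832 * (t : ℝ) ≤ b * b + t * (2.2832 * t) := by
        nlinarith [sq_nonneg ((t : ℝ) - 3 / 2)]
      nlinarith
    have e5 : (4.5664 : ℝ) / b = 2 * (2.2832 / b) := by ring
    have e6 : 3 * 2.2832 / (b : ℝ) = 3 * (2.2832 / b) := by ring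
    rw [e5] at e1
    rw [e6] at e4
    rw [e3]
    linarith

/-- decomposition of `I` -/
lemma sum_split (hd : Dev I a j) (g : ℕ → ℝ) :
    ∑ b ∈ I, g b = ∑ b ∈ chain j, g b + g a + ∑ b ∈ I.filter (a < ·), g b := by
  classical
  rw [← hd.below]
  have h1 : I = I.filter (· < a) ∪ ({a} ∪ I.filter (a < ·)) := by
    ext b
    simp only [mem_union, mem_filter, mem_singleton]
    constructor
    · intro hb
      rcases lt_trichotomy b a with h | h | h
      · exact Or.inl ⟨hb, h⟩
      · exact Or.inr (Or.inl h)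
      · exact Or.inr (Or.inr ⟨hb, h⟩)
    · rintro (h | h | h)
      · exact h.1
      · rw [h]; exact hd.mem
      · exact h.1
  conv_lhs => rw [h1]
  rw [Finset.sum_union, Finset.sum_union, Finset.sum_singleton]
  · ring
  · rw [Finset.disjoint_left]
    intro x hx hx2
    simp only [mem_singleton] at hx
    simp only [mem_filter] at hx2
    omega
  · rw [Finset.disjoint_left]
    intro x hx hx2
    simp only [mem_filter, mem_union, mem_singleton] at hx hx2
    omega

/-- mass identity (as an inequality): `2^(j+1) - 1 + a + ∑_{b > a} b ≤ D`. -/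
lemma mass (h : Sys D I) (hd : Dev I a j) :
    (2 : ℝ) ^ (j + 1) - 1 + a + ∑ b ∈ I.filter (a < ·), (b : ℝ) ≤ D := by
  have h1 : ((∑ b ∈ I, b : ℕ) : ℝ) ≤ D := by exact_mod_cast h.sum_le
  rw [Nat.cast_sum] at h1
  rw [sum_split hd (fun b => (b : ℝ)), sum_chain] at h1
  push_cast at h1
  rw [geom_two] at h1
  exact h1

/-- `(D-1) C(1)` over the chain. -/
lemma chain_one (h : Sys D I) (h3 : 3 ≤ I.card) (h1 : 1 ∈ I) (hd : Dev I a j) :
    ∑ b ∈ (chain j).erase 1, ((D : ℝ) - 1) * f D (xd D 1 b) ≤ 2 ^ (j + 1) - 2 + 2.2832 := by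
  have hle : ∀ b ∈ (chain j).erase 1, ((D : ℝ) - 1) * f D (xd D 1 b) ≤ (b : ℝ) + 2.2832 / b := by
    intro b hb
    rw [Finset.mem_erase] at hb
    obtain ⟨i, hi, rfl⟩ := mem_chain.1 hb.2
    exact h.prof_one_one h3 h1 (hd.chain_subset hi) hb.1
  refine (Finset.sum_le_sum hle).trans ?_
  have hmem : 1 ∈ chain j := mem_chain.2 ⟨0, Nat.zero_le _, by simp⟩
  rw [Finset.sum_erase_eq_sub hmem, sum_chain]
  simp only [Nat.cast_pow, Nat.cast_ofNat, Nat.cast_one, div_one]
  rw [Finset.sum_add_distrib, geom_two]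
  have h5 := geom_inv_le (j + 1)
  have h6 : ∑ i ∈ range (j + 1), 2.2832 / (2 : ℝ) ^ i = 2.2832 * ∑ i ∈ range (j + 1), 1 / (2 : ℝ) ^ i := by
    rw [Finset.mul_sum]
    exact Finset.sum_congr rfl fun i _ => by ring
  rw [h6]
  linarith

/-- **The combined inequality**. -/
theorem combined (h : Sys D I) (h3 : 3 ≤ I.card) (h1 : 1 ∈ I) (hd : Dev I a j)
    (h4a : 4 * a ≤ D + 1) :
    ((D : ℝ) - a) * (1 / 3 + 1 / a) ≤
      3 * 2.2832 + 8 / 3 + 2 * 2.2832 / a + 2 * 2.2832 * a / D +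
        ∑ b ∈ I.filter (a < ·), gg a b := by
  have ha3 := hd.three_le
  have haD := h.lt_of_mem h3 hd.mem
  have hDr : (a : ℝ) < D := by exact_mod_cast haD
  have har : (3 : ℝ) ≤ a := by exact_mod_cast ha3
  have hC1 := h.C 1 h1
  have hCa := h.C a hd.mem
  have hchain : 1 ∈ chain j := mem_chain.2 ⟨0, Nat.zero_le _, by simp⟩
  -- C(1)
  have e1 : ((D : ℝ) - 1) ≤ 2 ^ (j + 1) - 2 + 2.2832 + (a + 2.2832 / a) +
      ∑ b ∈ I.filter (a < ·), ((D : ℝ) - 1) * f D (xd D 1 b) := by
    have h5 : ((D : ℝ) - 1) * 1 ≤ ((D : ℝ) - 1) * ∑ b ∈ I.erase 1, f D (xd D 1 b) :=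
      mul_le_mul_of_nonneg_left hC1 (by linarith)
    rw [mul_one, Finset.mul_sum, Finset.sum_erase_eq_sub h1,
      sum_split hd (fun b => ((D : ℝ) - 1) * f D (xd D 1 b))] at h5
    have h6 := h.chain_one h3 h1 hd
    rw [Finset.sum_erase_eq_sub hchain] at h6
    have h7 := h.prof_one_one h3 h1 hd.mem (by omega)
    linarith
  -- C(a)
  have e2 : ((D : ℝ) - a) ≤ ∑ b ∈ chain j, ((D : ℝ) - a) * f D (xd D a b) +
      ∑ b ∈ I.filter (a < ·), ((D : ℝ) - a) * f D (xd D a b) := by
    have h5 : ((D : ℝ) - a) * 1 ≤ ((D : ℝ) - a) * ∑ b ∈ I.erase a, f D (xd D a b) :=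
      mul_le_mul_of_nonneg_left hCa (by linarith)
    rw [mul_one, Finset.mul_sum, Finset.sum_erase_eq_sub hd.mem,
      sum_split hd (fun b => ((D : ℝ) - a) * f D (xd D a b))] at h5
    linarith
  have e3 := h.chain_net h3 hd h4a
  have e4 : ∑ b ∈ I.filter (a < ·), (2 * (((D : ℝ) - 1) * f D (xd D 1 b)) +
      ((D : ℝ) - a) * f D (xd D a b)) ≤ ∑ b ∈ I.filter (a < ·), (2 * (b : ℝ) + gg a b) := by
    apply Finset.sum_le_sum
    intro b hb
    rw [Finset.mem_filter] at hb
    exact h.elem_bound h3 h1 hd.mem ha3 hb.1 hb.2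
  rw [Finset.sum_add_distrib, Finset.sum_add_distrib, ← Finset.mul_sum _ _ (2 : ℝ),
    ← Finset.mul_sum _ _ (2 : ℝ)] at e4
  have e5 := h.mass hd
  have e6 : 2 * 2.2832 / (a : ℝ) = 2 * (2.2832 / a) := by ring
  rw [e6]
  nlinarith

end Sys

end Pool.Agent.Helper27.FK
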