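import Pool.Agent.Helper27.FK.Basic

/-!
# Fraenkel's conjecture: the smallest deviant element
-/

open Finset Real

namespace Pool.Agent.Helper27.FK

/-- The chain `{1, 2, 4, …, 2^j}`. -/
def chain (j : ℕ) : Finset ℕ := (range (j + 1)).image (fun i => 2 ^ i)

lemma mem_chain {j b : ℕ} : b ∈ chain j ↔ ∃ i ≤ j, b = 2 ^ i := by
  unfold chain
  simp only [mem_image, mem_range, Nat.lt_succ_iff]
  exact ⟨fun ⟨i, hi, h⟩ => ⟨i, hi, h.symm⟩, fun ⟨i, hi, h⟩ => ⟨i, hi, h.symm⟩⟩

lemma sum_chain {M : Type*} [AddCommMonoid M] (j : ℕ) (g : ℕ → M) :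
    ∑ b ∈ chain j, g b = ∑ i ∈ range (j + 1), g (2 ^ i) := by
  unfold chain
  rw [Finset.sum_image]
  intro x _ y _ hxy
  exact Nat.pow_right_injective le_rfl hxy

lemma sum_chain_id (j : ℕ) : ∑ b ∈ chain j, b = 2 ^ (j + 1) - 1 := by
  rw [sum_chain j (fun b => b)]
  induction j with
  | zero => simp
  | succ n ih =>
    rw [Finset.sum_range_succ, ih]
    have : 0 < 2 ^ (n + 1) := by positivity
    rw [pow_succ 2 (n + 1)]
    omega

lemma card_chain (j : ℕ) : (chain j).card = j + 1 := by
  unfold chain
  rw [Finset.card_image_of_injective _ (Nat.pow_right_injective le_rfl), card_range]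

/-- `a` is the smallest element of `I` which does not continue the chain `1, 2, 4, …`:
the elements of `I` below `a` are `1, 2, …, 2^j` and `a ≠ 2^(j+1)`. -/
structure Dev (I : Finset ℕ) (a j : ℕ) : Prop where
  mem : a ∈ I
  lt : 2 ^ j < a
  ne : a ≠ 2 ^ (j + 1)
  below : I.filter (· < a) = chain j

lemma Dev.chain_subset {I : Finset ℕ} {a j : ℕ} (hd : Dev I a j) {i : ℕ} (hi : i ≤ j) :
    2 ^ i ∈ I := by
  have : 2 ^ i ∈ I.filter (· < a) := by
    rw [hd.below]; exact mem_chain.2 ⟨i, hi, rfl⟩
  exact (Finset.mem_filter.1 this).1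

lemma Dev.three_le {I : Finset ℕ} {a j : ℕ} (hd : Dev I a j) : 3 ≤ a := by
  have h1 := hd.lt
  have h2 := hd.ne
  rcases Nat.eq_zero_or_pos j with rfl | hj
  · simp at h1 h2; omega
  · have : 2 ^ 1 ≤ 2 ^ j := Nat.pow_le_pow_right (by norm_num) hj
    omega

/-- Either `I` is a chain or it has a smallest deviant element. -/
theorem chain_or_dev {I : Finset ℕ} (hpos : ∀ a ∈ I, 0 < a) (h1 : 1 ∈ I) :
    (∃ j, I = chain j) ∨ ∃ a j, Dev I a j := by
  classical
  by_contra hcon
  push Not at hcon
  obtain ⟨hc1, hc2⟩ := hcon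
  -- by induction all powers of two are in `I`, and nothing else below
  have key : ∀ j, 2 ^ j ∈ I ∧ I.filter (· < 2 ^ j + 1) = chain j := by
    intro j
    induction j with
    | zero =>
      refine ⟨by simpa using h1, ?_⟩
      ext b
      simp only [mem_filter, mem_chain]
      constructor
      · rintro ⟨hb, hb2⟩
        have := hpos b hb
        exact ⟨0, le_rfl, by simp at hb2 ⊢; omega⟩
      · rintro ⟨i, hi, rfl⟩
        obtain rfl : i = 0 := by omega
        exact ⟨by simpa using h1, by simp⟩
    | succ j ih =>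
      obtain ⟨ih1, ih2⟩ := ih
      -- the next element
      have hne : (I.filter (fun b => 2 ^ j < b)).Nonempty := by
        by_contra hemp
        rw [Finset.not_nonempty_iff_eq_empty] at hemp
        apply hc1 j
        rw [← ih2]
        ext b
        simp only [mem_filter]
        constructor
        · intro hb
          refine ⟨hb, ?_⟩
          by_contra hlt
          have : b ∈ I.filter (fun b => 2 ^ j < b) := mem_filter.2 ⟨hb, by omega⟩
          rw [hemp] at this
          simp at this
        · exact fun h => h.1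
      set a := (I.filter (fun b => 2 ^ j < b)).min' hne with ha
      have hamem := Finset.min'_mem _ hne
      rw [← ha, mem_filter] at hamem
      have hamin : ∀ b ∈ I, 2 ^ j < b → a ≤ b := fun b hb hlt =>
        Finset.min'_le _ _ (mem_filter.2 ⟨hb, hlt⟩)
      have hbelow : I.filter (· < a) = chain j := by
        rw [← ih2]
        ext b
        simp only [mem_filter]
        constructor
        · rintro ⟨hb, hlt⟩
          refine ⟨hb, ?_⟩
          by_contra hcon
          have := hamin b hb (by omega)
          omega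
        · rintro ⟨hb, hlt⟩
          exact ⟨hb, by omega⟩
      by_cases hae : a = 2 ^ (j + 1)
      · refine ⟨by rw [← hae]; exact hamem.1, ?_⟩
        ext b
        simp only [mem_filter, mem_chain]
        constructor
        · rintro ⟨hb, hlt⟩
          rcases Nat.lt_or_ge b a with hb2 | hb2
          · have : b ∈ chain j := by rw [← hbelow]; exact mem_filter.2 ⟨hb, hb2⟩
            obtain ⟨i, hi, rfl⟩ := mem_chain.1 this
            exact ⟨i, by omega, rfl⟩
          · exact ⟨j + 1, le_rfl, by omega⟩
        · rintro ⟨i, hi, rfl⟩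
          rcases Nat.lt_or_ge i (j + 1) with hi2 | hi2
          · have : 2 ^ i ∈ I.filter (· < a) := by
              rw [hbelow]; exact mem_chain.2 ⟨i, by omega, rfl⟩
            have h5 := mem_filter.1 this
            exact ⟨h5.1, by rw [← hae]; omega⟩
          · obtain rfl : i = j + 1 := by omega
            exact ⟨by rw [← hae]; exact hamem.1, by omega⟩
      · exact absurd ⟨hamem.1, hamem.2, hae, hbelow⟩ (hc2 a j)
  -- contradiction with finiteness
  have hinj : ∀ n, n + 1 ≤ I.card := by
    intro n
    rw [← card_chain n, ← (key n).2]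
    exact Finset.card_filter_le _ _
  have := hinj I.card
  omega

end Pool.Agent.Helper27.FK
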