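import Pool.Agent.Helper27.FK.Dev

/-!
# Fraenkel's conjecture: profit bounds
-/

open Finset Real

namespace Pool.Agent.Helper27.FK

/-- The generic bound: if `t D ≤ β x + c` with `0 ≤ c ≤ t a` then
`(D - a) f(x) ≤ β / t + 2.2832 t / β`. -/
lemma prof {D x : ℕ} {a β t c : ℝ} (ha : 0 ≤ a) (haD : a < D) (hx : 0 < x) (hx2 : 2 * x ≤ D)
    (hβ : 0 < β) (ht : 0 < t) (hc0 : 0 ≤ c) (hc : c ≤ t * a) (h : t * D ≤ β * x + c) :
    ((D : ℝ) - a) * f D x ≤ β / t + 2.2832 * t / β := by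
  have hD0 : (0 : ℝ) < D := lt_of_le_of_lt ha haD
  have hx' : (0 : ℝ) < x := by exact_mod_cast hx
  have hx2' : (2 : ℝ) * x ≤ D := by exact_mod_cast hx2
  have hf := f_le hx hx2
  set x0 : ℝ := (t * D - c) / β with hx0
  have hnum : 0 < t * D - c := by nlinarith
  have hx0pos : 0 < x0 := div_pos hnum hβ
  have hx0le : x0 ≤ x := by rw [hx0, div_le_iff₀ hβ]; linarith
  have hDa : 0 < (D : ℝ) - a := by linarith
  -- monotonicity of `1/x + K x / D²`
  have hmono : 1 / (x : ℝ) + 2.2832 * x / (D : ℝ) ^ 2 ≤ 1 / x0 + 2.2832 * x0 / (D : ℝ) ^ 2 := by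
    have hprod : 2.2832 * (x * x0) ≤ (D : ℝ) ^ 2 := by
      have : x * x0 ≤ x * x := mul_le_mul_of_nonneg_left hx0le hx'.le
      nlinarith
    have e : 1 / x0 + 2.2832 * x0 / (D : ℝ) ^ 2 - (1 / (x : ℝ) + 2.2832 * x / (D : ℝ) ^ 2)
        = (x - x0) * ((D : ℝ) ^ 2 - 2.2832 * (x * x0)) / (x * x0 * (D : ℝ) ^ 2) := by
      field_simp
      ring
    have : 0 ≤ (x - x0) * ((D : ℝ) ^ 2 - 2.2832 * (x * x0)) / (x * x0 * (D : ℝ) ^ 2) := by
      apply div_nonneg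
      · exact mul_nonneg (by linarith) (by linarith)
      · positivity
    linarith
  have h1 : ((D : ℝ) - a) * f D x ≤ ((D : ℝ) - a) * (1 / x0 + 2.2832 * x0 / (D : ℝ) ^ 2) :=
    mul_le_mul_of_nonneg_left (hf.trans hmono) hDa.le
  have h2 : ((D : ℝ) - a) * (1 / x0) ≤ β / t := by
    rw [hx0, one_div_div, mul_div_assoc', div_le_div_iff₀ hnum ht]
    nlinarith
  have h3 : ((D : ℝ) - a) * (2.2832 * x0 / (D : ℝ) ^ 2) ≤ 2.2832 * t / β := by
    rw [mul_div_assoc', div_le_div_iff₀ (by positivity) hβ]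
    have h4 : x0 * β = t * D - c := by rw [hx0]; field_simp
    have h5 : ((D : ℝ) - a) * (2.2832 * x0) * β = 2.2832 * (((D : ℝ) - a) * (t * D - c)) := by
      rw [← h4]; ring
    rw [h5]
    have h6 : ((D : ℝ) - a) * (t * D - c) ≤ D * (t * D) := by
      apply mul_le_mul <;> nlinarith
    nlinarith
  calc ((D : ℝ) - a) * f D x ≤ ((D : ℝ) - a) * (1 / x0 + 2.2832 * x0 / (D : ℝ) ^ 2) := h1
    _ = ((D : ℝ) - a) * (1 / x0) + ((D : ℝ) - a) * (2.2832 * x0 / (D : ℝ) ^ 2) := by ring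
    _ ≤ _ := add_le_add h2 h3

namespace Sys

variable {D : ℕ} {I : Finset ℕ}

/-- `t_ab ≥ t` in natural-number form gives the bound for `x_ab`. -/
lemma prof_nat (h : Sys D I) (h3 : 3 ≤ I.card) {a b t : ℕ} (ha : a ∈ I) (hb : b ∈ I)
    (ht : 1 ≤ t) (hle : t * D ≤ b * xd D a b + a) :
    ((D : ℝ) - a) * f D (xd D a b) ≤ (b : ℝ) / t + 2.2832 * t / b := by
  have haD := h.lt_of_mem h3 ha
  have hapos := h.pos a ha
  have hbpos := h.pos b hb
  have h1 : (t : ℝ) * D ≤ b * (xd D a b : ℝ) + a := by exact_mod_cast hle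
  have htr : (1 : ℝ) ≤ t := by exact_mod_cast ht
  have har : (0 : ℝ) < a := by exact_mod_cast hapos
  refine prof (a := (a : ℝ)) (c := (a : ℝ)) har.le (by exact_mod_cast haD)
    (xd_pos (by omega) (h.cop a ha) (h.cop b hb)) (two_mul_xd_le (by omega) a b)
    (by exact_mod_cast hbpos) (by linarith) har.le (by nlinarith) h1

/-- `b ∤ a` implies `D ≤ b x_ab + a`. -/
lemma one_le_t (h : Sys D I) (h3 : 3 ≤ I.card) {a b : ℕ} (ha : a ∈ I) (hb : b ∈ I)
    (hab : ¬ b ∣ a) : D ≤ b * xd D a b + a := by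
  have haD := h.lt_of_mem h3 ha
  obtain ⟨t, ht⟩ := xd_spec (h.cop b hb) haD
  rcases Nat.eq_zero_or_pos t with rfl | ht0
  · exfalso
    rcases ht with ht | ht
    · exact hab ⟨xd D a b, by omega⟩
    · have := h.pos a ha
      omega
  · have : 1 * D ≤ t * D := Nat.mul_le_mul_right D ht0
    rcases ht with ht | ht <;> omega

/-- `(D - a) f(x_ab) ≤ b + 2.2832 / b` if `b ∤ a`. -/
lemma prof_one (h : Sys D I) (h3 : 3 ≤ I.card) {a b : ℕ} (ha : a ∈ I) (hb : b ∈ I)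
    (hab : ¬ b ∣ a) :
    ((D : ℝ) - a) * f D (xd D a b) ≤ (b : ℝ) + 2.2832 / b := by
  have := h.prof_nat h3 ha hb le_rfl (by simpa using h.one_le_t h3 ha hb hab)
  simpa using this

/-- The case `a = 1`. -/
lemma prof_one_one (h : Sys D I) (h3 : 3 ≤ I.card) {b : ℕ} (h1 : 1 ∈ I) (hb : b ∈ I)
    (hb1 : b ≠ 1) :
    ((D : ℝ) - 1) * f D (xd D 1 b) ≤ (b : ℝ) + 2.2832 / b := by
  have := h.prof_one h3 h1 hb (by rw [Nat.dvd_one]; exact hb1)
  simpa using this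

/-- `a = 1`, `b` bad: `(D - 1) f(x_1b) ≤ b/2 + 4.5664 / b`. -/
lemma prof_one_bad (h : Sys D I) (h3 : 3 ≤ I.card) {b : ℕ} (h1 : 1 ∈ I) (hb : b ∈ I)
    (hb1 : b ≠ 1) (hbad1 : b * xd D 1 b ≠ D + 1) (hbad2 : b * xd D 1 b + 1 ≠ D) :
    ((D : ℝ) - 1) * f D (xd D 1 b) ≤ (b : ℝ) / 2 + 4.5664 / b := by
  have h1D := h.lt_of_mem h3 h1
  obtain ⟨t, ht⟩ := xd_spec (h.cop b hb) h1D
  have ht2 : 2 ≤ t := by
    by_contra hcon
    have : t = 0 ∨ t = 1 := by omega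
    rcases this with rfl | rfl
    · rcases ht with ht | ht
      · have h5 : b * xd D 1 b = 1 := by omega
        have := Nat.eq_one_of_mul_eq_one_right h5
        omega
      · omega
    · rcases ht with ht | ht
      · apply hbad1; omega
      · apply hbad2; omega
  have hle : 2 * D ≤ b * xd D 1 b + 1 := by
    have : 2 * D ≤ t * D := Nat.mul_le_mul_right D ht2
    rcases ht with ht | ht <;> omega
  have := h.prof_nat h3 h1 hb (by norm_num) hle
  simp only [Nat.cast_one, Nat.cast_ofNat] at this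
  have e : 2.2832 * 2 / (b : ℝ) = 4.5664 / b := by norm_num
  rw [e] at this
  exact this

end Sys

end Pool.Agent.Helper27.FK
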