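import Pool.Agent.Helper27.FK.CaseI
import Pool.Agent.Helper7.FR.CaseII
import Pool.Agent.Helper7.FR.Final
import Pool.Agent.Helper47.FK.DMain
import Pool.Agent.Helper47.FK.B

/-!
# Fraenkel's conjecture: assembly of the theorem on cosecant systems
-/

open Finset Real

namespace Pool.Agent.Helper27.FK

/-- Nothing lies above the smallest deviant element. -/
theorem noAbove (D : ℕ) (I : Finset ℕ) (a j : ℕ) (h : Sys D I) (h3 : 3 ≤ I.card)
    (hd : Dev I a j) : ∀ b ∈ I, b ≤ a := by
  intro b hb
  by_contra hcon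
  have hab : a < b := by omega
  have h1 : 1 ∈ I := p_eq_one h h3
  rcases Nat.lt_or_ge D 206 with hD | hD
  · exact caseB h h3 h1 hd (by omega) hb hab
  · rcases Nat.lt_or_ge D (a * (a + 1)) with hbig | hsmall
    · exact Pool.Agent.Helper7.FR.caseII h h3 hd hD hbig hb hab
    · exact caseI h h3 h1 hd hD hsmall

/-- **The theorem on cosecant systems.** -/
theorem cosecThm : Pool.Agent.Helper7.FR.CosecThm :=
  fun _ _ h h3 => T_of_noAbove noAbove h h3

end Pool.Agent.Helper27.FK
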