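import Pool.Agent.Helper7.FR.Class

/-!
# Tuples of two-letter type: definition
-/

open Finset

namespace Pool.Agent.Helper27.FK

/-- `r` is of two-letter type: a two-letter regular word with rates `x` and `1 - x` in which
each of the two letters is replaced periodically, along an exact covering system of `ℤ` by
residue classes.  So `r i = x / T i` (if `s i` is true) or `r i = (1 - x) / T i` (if `s i` is
false), where for both values `β` the residue classes `a i mod T i`, `s i = β`, form an exact
cover of `ℤ`. -/
def TwoLetter {n : ℕ} (r : Fin n → ℝ) : Prop :=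
  ∃ (x : ℝ) (s : Fin n → Bool) (T : Fin n → ℕ) (a : Fin n → ℤ), 0 < x ∧ x < 1 ∧
    (∀ i, 0 < T i) ∧ (∀ i, r i = (if s i then x else 1 - x) / T i) ∧
    ∀ (β : Bool) (m : ℤ), ∃! i, s i = β ∧ (T i : ℤ) ∣ m - a i

end Pool.Agent.Helper27.FK
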